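import Mathlib

open Finset Filter Topology

namespace Pool.Agent.Results.MP_5d7181_co.Q2

/-- The hypercube: binary vectors, adjacent when they differ in exactly one coordinate. -/
def cube (d : ℕ) : SimpleGraph (Fin d → ZMod 2) where
  Adj x y := hammingDist x y = 1
  symm := ⟨fun x y h => by rwa [hammingDist_comm]⟩
  loopless := ⟨fun x h => by simp at h⟩

/-- Odd independent sets: independent, and every outside vertex has no neighbour or an odd
number of neighbours in the set. -/
def OddIndep {V : Type} (G : SimpleGraph V) (S : Set V) : Prop :=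
  G.IsIndepSet S ∧
    ∀ v, v ∉ S → G.neighborSet v ∩ S = ∅ ∨ Odd (G.neighborSet v ∩ S).ncard

/-- The odd independence number. -/
noncomputable def alphaOd {V : Type} (G : SimpleGraph V) : ℕ :=
  sSup {n | ∃ S : Set V, OddIndep G S ∧ S.ncard = n}

lemma adj_iff {d : ℕ} (x y : Fin d → ZMod 2) :
    (cube d).Adj x y ↔ ∃ i, y = x + Pi.single i 1 := by
  have two : ∀ a b : ZMod 2, a ≠ b ↔ b = a + 1 := by decide
  change hammingDist x y = 1 ↔ _
  unfold hammingDist
  rw [Finset.card_eq_one]
  constructor
  · rintro ⟨i, hi⟩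
    refine ⟨i, funext fun j => ?_⟩
    have hj : x j ≠ y j ↔ j = i := by
      have := Finset.ext_iff.1 hi j
      simpa using this
    by_cases h : j = i
    · subst h
      simp only [Pi.add_apply, Pi.single_eq_same]
      exact (two _ _).1 (hj.2 rfl)
    · have : x j = y j := by
        by_contra h'
        exact h (hj.1 h')
      simp [Pi.single_eq_of_ne h, this]
  · rintro ⟨i, rfl⟩
    refine ⟨i, Finset.ext fun j => ?_⟩
    by_cases h : j = i
    · subst h
      simp
    · simp [h]

lemma indep_le {d : ℕ} (hd : 0 < d) (S : Set (Fin d → ZMod 2)) (hS : (cube d).IsIndepSet S) :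
    2 * S.ncard ≤ 2 ^ d := by
  have h1 : S.ncard ≤ Sᶜ.ncard := by
    refine Set.ncard_le_ncard_of_injOn (fun x => x + Pi.single ⟨0, hd⟩ 1) ?_ ?_ (Set.toFinite _)
    · intro x hx hx'
      have ha : (cube d).Adj x (x + Pi.single ⟨0, hd⟩ 1) := (adj_iff _ _).2 ⟨_, rfl⟩
      exact hS hx hx' ha.ne ha
    · intro x _ y _ h
      exact add_right_cancel h
  have h2 := Set.ncard_add_ncard_compl S
  have h3 : Nat.card (Fin d → ZMod 2) = 2 ^ d := by simp
  omega

lemma bdd {d : ℕ} : BddAbove {n | ∃ S : Set (Fin d → ZMod 2), OddIndep (cube d) S ∧ S.ncard = n} := by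
  refine ⟨Nat.card (Fin d → ZMod 2), ?_⟩
  rintro n ⟨S, -, rfl⟩
  exact Set.ncard_le_card S

lemma alpha_le {d : ℕ} (hd : 0 < d) : 2 * alphaOd (cube d) ≤ 2 ^ d := by
  have hne : {n | ∃ S : Set (Fin d → ZMod 2), OddIndep (cube d) S ∧ S.ncard = n}.Nonempty :=
    ⟨0, ∅, ⟨by simp, fun v _ => Or.inl (by simp)⟩, by simp⟩
  obtain ⟨S, hS, h⟩ := Nat.sSup_mem hne bdd
  unfold alphaOd
  rw [← h]
  exact indep_le hd S hS.1

lemma exists_cols {d m : ℕ} (hd : Even d) (hm : 1 ≤ m) (h : 2 ^ m ≤ d) :
    ∃ c : Fin d → (Fin m → ZMod 2), ∀ s, Odd (univ.filter fun i => c i = s).card := by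
  classical
  have hc : Fintype.card (Fin m → ZMod 2) ≤ Fintype.card (Fin d) := by simpa using h
  obtain ⟨g⟩ := Function.Embedding.nonempty_of_card_le hc
  let c : Fin d → (Fin m → ZMod 2) := fun i => if hi : ∃ s, g s = i then hi.choose else 0
  have hcg : ∀ s, c (g s) = s := by
    intro s
    have hi : ∃ t, g t = g s := ⟨s, rfl⟩
    simp only [c, dif_pos hi]
    exact g.injective hi.choose_spec
  have h1 : ∀ s, s ≠ 0 → (univ.filter fun i => c i = s).card = 1 := by
    intro s hs
    rw [Finset.card_eq_one]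
    refine ⟨g s, Finset.ext fun i => ?_⟩
    simp only [mem_filter, mem_univ, true_and, mem_singleton]
    constructor
    · intro hi
      by_cases he : ∃ t, g t = i
      · obtain ⟨t, rfl⟩ := he
        rw [hcg] at hi
        rw [hi]
      · simp only [c, dif_neg he] at hi
        exact absurd hi.symm hs
    · rintro rfl
      exact hcg s
  refine ⟨c, fun s => ?_⟩
  by_cases hs : s = 0
  · subst hs
    have h2 := Finset.card_eq_sum_card_fiberwise (f := c) (s := univ) (t := univ)
      (fun _ _ => mem_coe.2 (mem_univ _))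
    rw [← Finset.add_sum_erase _ _ (mem_univ (0 : Fin m → ZMod 2))] at h2
    rw [Finset.sum_congr rfl (fun t ht => h1 t (Finset.ne_of_mem_erase ht))] at h2
    simp only [card_univ, Fintype.card_fin, sum_const, smul_eq_mul, mul_one,
      card_erase_of_mem (mem_univ _), Fintype.card_fun, ZMod.card] at h2
    obtain ⟨k, rfl⟩ : ∃ k, m = k + 1 := ⟨m - 1, by omega⟩
    obtain ⟨e, he⟩ := hd
    have hp : 1 ≤ 2 ^ k := Nat.one_le_two_pow
    rw [pow_succ] at h2 h
    exact ⟨e - 2 ^ k, by omega⟩
  · rw [h1 s hs]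
    exact odd_one

lemma lower {d m : ℕ} (hd : Even d) (hm : 1 ≤ m) (h : 2 ^ m ≤ d) :
    (2 ^ m - 1) * 2 ^ d ≤ 2 ^ (m + 1) * alphaOd (cube d) := by
  classical
  obtain ⟨c, hc⟩ := exists_cols hd hm h
  let P : (Fin d → ZMod 2) →+ ZMod 2 × (Fin m → ZMod 2) :=
    { toFun := fun x => (∑ i, x i, ∑ i, x i • c i)
      map_zero' := by simp
      map_add' := by
        intro x y
        simp [Finset.sum_add_distrib, add_smul] }
  have hP : ∀ i, P (Pi.single i 1) = (1, c i) := by
    intro i
    simp only [P, AddMonoidHom.coe_mk, ZeroHom.coe_mk, Prod.mk.injEq]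
    constructor
    · simp
    · rw [Finset.sum_eq_single i]
      · simp
      · intro j _ hj
        simp [Pi.single_eq_of_ne hj]
      · simp
  have hcs : ∀ s, ∃ i, c i = s := by
    intro s
    have := (hc s).pos
    obtain ⟨i, hi⟩ := Finset.card_pos.1 this
    exact ⟨i, by simpa using hi⟩
  have z2 : ∀ a : ZMod 2, a = 0 ∨ a = 1 := by decide
  have hsurj : ∀ y, y ∈ Set.range P := by
    rintro ⟨a, s⟩
    obtain ⟨i, hi⟩ := hcs s
    obtain ⟨j, hj⟩ := hcs 0
    rcases z2 a with rfl | rfl
    · refine ⟨Pi.single i 1 + Pi.single j 1, ?_⟩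
      rw [map_add, hP, hP, hi, hj]
      ext1
      · show (1 : ZMod 2) + 1 = 0
        decide
      · simp
    · exact ⟨Pi.single i 1, by rw [hP, hi]⟩
  set k := (univ.filter fun x => P x = 0).card with hk
  have hfib : ∀ y, (univ.filter fun x => P x = y).card = k := fun y =>
    AddMonoidHom.card_fiber_eq_of_mem_range P (hsurj y) (hsurj 0)
  have htot : 2 ^ d = 2 ^ (m + 1) * k := by
    have h2 := Finset.card_eq_sum_card_fiberwise (f := P) (s := univ) (t := univ)
      (fun _ _ => mem_coe.2 (mem_univ _))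
    simp only [hfib] at h2
    simpa [pow_succ, mul_comm] using h2
  let S : Finset (Fin d → ZMod 2) := univ.filter fun x => (P x).1 = 0 ∧ (P x).2 ≠ 0
  have hS : S.card = (2 ^ m - 1) * k := by
    have h2 := Finset.card_eq_sum_card_fiberwise (f := fun x => (P x).2) (s := S)
      (t := univ.erase 0) (fun x hx => by
        have := (mem_filter.1 (mem_coe.1 hx)).2.2
        simpa using this)
    rw [h2, Finset.sum_congr rfl (g := fun _ => k)]
    · simp [card_erase_of_mem]
    · intro s hs
      rw [← hfib (0, s)]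
      congr 1
      ext x
      have hs' := Finset.ne_of_mem_erase hs
      simp only [S, mem_filter, mem_univ, true_and, Prod.ext_iff]
      constructor
      · rintro ⟨⟨a, -⟩, b⟩
        exact ⟨a, b⟩
      · rintro ⟨a, b⟩
        exact ⟨⟨a, b ▸ hs'⟩, b⟩
  have hO : OddIndep (cube d) (S : Set _) := by
    constructor
    · intro x hx y hy _ ha
      obtain ⟨i, rfl⟩ := (adj_iff _ _).1 ha
      have h1 := (mem_filter.1 (mem_coe.1 hx)).2.1
      have h2 := (mem_filter.1 (mem_coe.1 hy)).2.1
      rw [map_add, hP, Prod.fst_add, h1] at h2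
      exact absurd h2 (by show ¬ ((0 : ZMod 2) + 1 = 0); decide)
    · intro v _
      rcases z2 (P v).1 with h0 | h0
      · left
        ext y
        simp only [Set.mem_inter_iff, SimpleGraph.mem_neighborSet, mem_coe,
          Set.mem_empty_iff_false, iff_false, not_and]
        intro ha hy
        obtain ⟨i, rfl⟩ := (adj_iff _ _).1 ha
        have h2 := (mem_filter.1 hy).2.1
        rw [map_add, hP, Prod.fst_add, h0] at h2
        exact absurd h2 (by show ¬ ((0 : ZMod 2) + 1 = 0); decide)
      · right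
        have neg2 : ∀ s t : Fin m → ZMod 2, s + t = 0 ↔ t = s := by
          intro s t
          have : ∀ a b : ZMod 2, a + b = 0 ↔ b = a := by decide
          simp [funext_iff, this]
        have he : (cube d).neighborSet v ∩ (S : Set _) =
            ((univ.filter fun i => ¬ c i = (P v).2).image
              (fun i => v + Pi.single i 1) : Finset _) := by
          ext y
          simp only [Set.mem_inter_iff, SimpleGraph.mem_neighborSet, mem_coe, mem_image,
            mem_filter, mem_univ, true_and, adj_iff, S]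
          constructor
          · rintro ⟨⟨i, rfl⟩, -, h2⟩
            refine ⟨i, fun h3 => h2 ?_, rfl⟩
            rw [map_add, hP, Prod.snd_add, neg2]
            exact h3
          · rintro ⟨i, hi, rfl⟩
            refine ⟨⟨i, rfl⟩, ?_, ?_⟩
            · rw [map_add, hP, Prod.fst_add, h0]
              show (1 : ZMod 2) + 1 = 0
              decide
            · rw [map_add, hP, Prod.snd_add, Ne, neg2]
              exact hi
        rw [he, Set.ncard_coe_finset, Finset.card_image_of_injective]
        · have h3 := Finset.card_filter_add_card_filter_not (s := (univ : Finset (Fin d)))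
            (fun i => c i = (P v).2)
          simp only [card_univ, Fintype.card_fin] at h3
          obtain ⟨a, ha⟩ := hc (P v).2
          obtain ⟨e, he⟩ := hd
          exact ⟨e - a - 1, by omega⟩
        · intro i j hij
          have := congrFun (add_left_cancel hij) i
          by_contra hne
          simp [Pi.single_eq_of_ne hne] at this
  have hle : S.card ≤ alphaOd (cube d) :=
    le_csSup bdd ⟨S, hO, Set.ncard_coe_finset S⟩
  rw [htot]
  calc (2 ^ m - 1) * (2 ^ (m + 1) * k) = 2 ^ (m + 1) * S.card := by rw [hS]; ring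
    _ ≤ _ := Nat.mul_le_mul_left _ hle

theorem result :
    Tendsto (fun k : ℕ => (alphaOd (cube (2 * k)) : ℝ) / 2 ^ (2 * k)) atTop (𝓝 (1 / 2)) := by
  have hl : Tendsto (fun k : ℕ => (1 / 2 : ℝ) - 1 / (k : ℝ)) atTop (𝓝 (1 / 2)) := by
    simpa using (tendsto_const_nhds (x := (1 / 2 : ℝ))).sub tendsto_one_div_atTop_nhds_zero_nat
  refine tendsto_of_tendsto_of_tendsto_of_le_of_le' hl tendsto_const_nhds ?_ ?_
  · filter_upwards [eventually_ge_atTop 1] with k hk
    set m := Nat.log 2 (2 * k) with hm
    have h1 : 2 ^ m ≤ 2 * k := Nat.pow_log_le_self 2 (by omega)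
    have h2 : 2 * k < 2 ^ (m + 1) := Nat.lt_pow_succ_log_self (by norm_num) _
    have h3 : 1 ≤ m := by
      by_contra h
      have : m = 0 := by omega
      rw [this] at h2
      omega
    have h4 := lower (even_two_mul k) h3 h1
    have h5 : ((2 : ℝ) ^ m - 1) * 2 ^ (2 * k) ≤ 2 ^ (m + 1) * (alphaOd (cube (2 * k)) : ℝ) := by
      have hp : 1 ≤ 2 ^ m := Nat.one_le_two_pow
      have := (Nat.cast_le (α := ℝ)).2 h4
      push_cast [Nat.cast_sub hp] at this
      exact this
    have h6 : (k : ℝ) < 2 ^ m := by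
      have : k < 2 ^ m := by rw [pow_succ] at h2; omega
      exact_mod_cast this
    have hk0 : (0 : ℝ) < k := by exact_mod_cast hk
    have hq : (0 : ℝ) < 2 ^ (2 * k) := by positivity
    have hM : (0 : ℝ) < 2 ^ m := by positivity
    rw [le_div_iff₀ hq]
    have h7 : (1 / 2 : ℝ) - 1 / k ≤ (2 ^ m - 1) / 2 ^ (m + 1) := by
      have : (1 : ℝ) / 2 ^ m ≤ 1 / k := one_div_le_one_div_of_le hk0 h6.le
      have e : ((2 : ℝ) ^ m - 1) / 2 ^ (m + 1) = 1 / 2 - (1 / 2 ^ m) / 2 := by
        rw [pow_succ]; field_simp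
      have : (0 : ℝ) < 1 / 2 ^ m := by positivity
      linarith
    calc ((1 / 2 : ℝ) - 1 / k) * 2 ^ (2 * k) ≤ (2 ^ m - 1) / 2 ^ (m + 1) * 2 ^ (2 * k) :=
          mul_le_mul_of_nonneg_right h7 hq.le
      _ ≤ _ := by
          rw [div_mul_eq_mul_div, div_le_iff₀ (by positivity)]
          linarith
  · filter_upwards [eventually_ge_atTop 1] with k hk
    have := alpha_le (d := 2 * k) (by omega)
    have h : 2 * (alphaOd (cube (2 * k)) : ℝ) ≤ 2 ^ (2 * k) := by exact_mod_cast this
    rw [div_le_iff₀ (by positivity)]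
    linarith

end Pool.Agent.Results.MP_5d7181_co.Q2
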